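import Pool.Agent.H.MP_8e2f96_co.Gap

set_option autoImplicit false

namespace Pool.Agent.Results.MP_8e2f96_co.Gap

open Classical Pool.Agent.Lib.helper7.Mag

theorem result (d : ℕ) (hd : 2 ≤ d) : ∃ c : ℝ, 0 < c ∧
    ∀ (V : Type) [Fintype V] (G : SimpleGraph V), G.Connected → (∀ x, d ≤ G.degree x) →
      ∃ l, IsLeast {t | t ∈ spectrum ℝ (G.lapMatrix ℝ) ∧ t ≠ 0} l ∧ l ≤ c * nu G := by
  refine ⟨12000, by norm_num, fun V _ G hc h => ?_⟩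
  obtain ⟨t, ht, t0, t1⟩ := H.MP_8e2f96_co.main hc fun x => hd.trans (h x)
  obtain ⟨l, h1, h2⟩ := Set.exists_min_image {t | t ∈ spectrum ℝ (G.lapMatrix ℝ) ∧ t ≠ 0} id
    ((G.lapMatrix ℝ).finite_spectrum.subset fun _ h => h.1) ⟨t, ht, t0⟩
  exact ⟨l, ⟨h1, h2⟩, (h2 t ⟨ht, t0⟩).trans t1⟩

end Pool.Agent.Results.MP_8e2f96_co.Gap
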